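import Pool.Agent.Helper53.Sof.Mono

/-!
# Almost invariant labellings are almost constant on irreducible parts
-/

namespace Pool.Agent.Helper53.Sof

open Finset Pool.Agent.Helper13.Sof

noncomputable section

variable {A : Type} [Fintype A]

/-- One label dominates. -/
lemma exists_label {n : ℕ} (ξ : Fin n → Equiv.Perm A) (B : Finset A) (r : A → ℕ) (τ δ' : ℝ)
    (hτ0 : 0 < τ) (hτ1 : τ < 1 / 3) (hB : B.Nonempty)
    (hload : ∑ i, cnt (fun s => s ∈ B ∧ (ξ i s ∉ B ∨ r (ξ i s) ≠ r s)) ≤ δ' * (B.card : ℝ))
    (hirr : Irred ξ B δ' τ) :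
    ∃ w : ℕ, (1 - τ) * (B.card : ℝ) ≤ cnt (fun s => s ∈ B ∧ r s = w) := by
  classical
  have hBpos : (0 : ℝ) < B.card := by exact_mod_cast hB.card_pos
  set Q : Finset ℕ → Finset A := fun V => B.filter (fun s => r s ∈ V) with hQ
  have hdich : ∀ V : Finset ℕ, ((Q V).card : ℝ) ≤ τ * (B.card : ℝ) ∨
      (1 - τ) * (B.card : ℝ) ≤ ((Q V).card : ℝ) := by
    intro V
    apply hirr (Q V) (Finset.filter_subset _ _)
    refine le_trans ?_ hload
    unfold eb
    apply Finset.sum_le_sum
    intro i _
    apply cnt_mono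
    rintro s ⟨h1, h2⟩
    simp only [hQ, mem_filter, not_and] at h1 h2
    refine ⟨h1.1, ?_⟩
    by_cases h3 : ξ i s ∈ B
    · right
      intro h4
      apply h2 h3
      rw [h4]
      exact h1.2
    · exact Or.inl h3
  set W := B.image r with hW
  have hQW : Q W = B := by
    ext s
    simp only [hQ, mem_filter, hW, mem_image]
    constructor
    · exact fun h => h.1
    · exact fun h => ⟨h, s, h, rfl⟩
  set Fam : Finset (Finset ℕ) := W.powerset.filter
    (fun V => ((Q V).card : ℝ) ≤ τ * (B.card : ℝ)) with hFam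
  have hempty : ∅ ∈ Fam := by
    simp only [hFam, mem_filter, mem_powerset, empty_subset, true_and]
    have : Q ∅ = ∅ := by
      simp [hQ]
    rw [this]
    simp only [card_empty, Nat.cast_zero]
    positivity
  obtain ⟨V, hV, hmax⟩ := Finset.exists_max_image Fam Finset.card ⟨∅, hempty⟩
  simp only [hFam, mem_filter, mem_powerset] at hV
  have hne : V ≠ W := by
    intro h
    have h1 := hV.2
    rw [h, hQW] at h1
    nlinarith
  obtain ⟨w, hwW, hwV⟩ : ∃ w ∈ W, w ∉ V := by
    by_contra hc
    push Not at hc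
    exact hne (Finset.Subset.antisymm hV.1 hc)
  refine ⟨w, ?_⟩
  have hbig : (1 - τ) * (B.card : ℝ) ≤ ((Q (insert w V)).card : ℝ) := by
    rcases hdich (insert w V) with h | h
    · exfalso
      have h1 : insert w V ∈ Fam := by
        simp only [hFam, mem_filter, mem_powerset]
        refine ⟨Finset.insert_subset hwW hV.1, h⟩
      have h2 := hmax _ h1
      rw [Finset.card_insert_of_notMem hwV] at h2
      omega
    · exact h
  have hsplit : ((Q (insert w V)).card : ℝ) ≤ ((Q {w}).card : ℝ) + ((Q V).card : ℝ) := by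
    have : Q (insert w V) ⊆ Q {w} ∪ Q V := by
      intro s hs
      simp only [hQ, mem_filter, mem_insert, mem_union, mem_singleton] at hs ⊢
      rcases hs.2 with h | h
      · exact Or.inl ⟨hs.1, h⟩
      · exact Or.inr ⟨hs.1, h⟩
    have h2 := (Finset.card_le_card this).trans (Finset.card_union_le _ _)
    exact_mod_cast h2
  have hw : (1 - τ) * (B.card : ℝ) ≤ ((Q {w}).card : ℝ) := by
    rcases hdich {w} with h | h
    · exfalso
      have h1 := hV.2
      nlinarith
    · exact h
  refine le_trans hw (le_of_eq ?_)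
  rw [← cnt_mem (Q {w})]
  congr 1
  ext s
  simp [hQ]

theorem domLemma : DomLemma := by
  intro n A _ ξ q r τ δ' δ δ2 hτ0 hτ1 hδ' hq hr hirr
  classical
  set N : ℝ := (Fintype.card A : ℝ) with hN
  have hN0 : 0 ≤ N := by positivity
  set V := univ.image q with hV
  set B : ℕ → Finset A := fun v => univ.filter (fun s => q s = v) with hB
  have hmemB : ∀ v s, s ∈ B v ↔ q s = v := by
    intro v s
    simp [hB]
  set load : ℕ → ℝ := fun v => ∑ i, cnt (fun s => s ∈ B v ∧ (ξ i s ∉ B v ∨ r (ξ i s) ≠ r s))
    with hload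
  have hload0 : ∀ v, 0 ≤ load v := by
    intro v
    simp only [hload]
    exact Finset.sum_nonneg fun j _ => cnt_nonneg _
  have hsumload : ∑ v ∈ V, load v ≤ (δ + δ2) * N := by
    simp only [hload]
    rw [Finset.sum_comm]
    have h1 : ∀ i ∈ (univ : Finset (Fin n)),
        ∑ v ∈ V, cnt (fun s => s ∈ B v ∧ (ξ i s ∉ B v ∨ r (ξ i s) ≠ r s)) ≤
        cnt (fun s => q (ξ i s) ≠ q s) + cnt (fun s => r (ξ i s) ≠ r s) := by
      intro i _
      refine le_trans (le_of_eq ?_) (cnt_or_le _ _)
      rw [cnt_fiber q (fun s => q (ξ i s) ≠ q s ∨ r (ξ i s) ≠ r s)]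
      refine Finset.sum_congr rfl fun v _ => ?_
      congr 1
      ext s
      rw [hmemB, hmemB]
      constructor
      · rintro ⟨h1, h2⟩
        exact ⟨h1, by rw [h1]; exact h2⟩
      · rintro ⟨h1, h2⟩
        exact ⟨h1, by rw [h1] at h2; exact h2⟩
    refine le_trans (Finset.sum_le_sum h1) ?_
    rw [Finset.sum_add_distrib]
    unfold bdry at hq hr
    linarith
  have hsumB : ∑ v ∈ V, ((B v).card : ℝ) = N := by
    have h1 := cnt_fiber q (fun _ : A => True)
    rw [cnt_true] at h1
    rw [hN, h1]
    refine Finset.sum_congr rfl fun v _ => ?_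
    rw [← cnt_mem (B v)]
    congr 1
    ext s
    rw [hmemB]
    simp
  have hsumI : ∑ v ∈ V, cnt (fun s => q s = v ∧ ¬ Irred ξ (part q s) δ' τ) ≤ τ * N := by
    rw [← cnt_fiber q (fun s => ¬ Irred ξ (part q s) δ' τ)]
    exact hirr
  have hmain : ∀ v ∈ V, cnt (fun s => q s = v ∧ ¬ Dom q r τ s) ≤
      τ * ((B v).card : ℝ) +
      cnt (fun s => q s = v ∧ ¬ Irred ξ (part q s) δ' τ) + load v / δ' := by
    intro v hv
    have hpart : ∀ s, q s = v → part q s = B v := by
      intro s hs
      unfold part
      simp only [hB]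
      ext t
      simp [hs]
    have hle : cnt (fun s => q s = v ∧ ¬ Dom q r τ s) ≤ ((B v).card : ℝ) := by
      rw [← cnt_mem (B v)]
      apply cnt_mono
      intro s hs
      rw [hmemB]
      exact hs.1
    have hc0 := cnt_nonneg (fun s => q s = v ∧ ¬ Irred ξ (part q s) δ' τ)
    have hl0 : 0 ≤ load v / δ' := div_nonneg (hload0 v) hδ'.le
    have hb0 : 0 ≤ τ * ((B v).card : ℝ) := by positivity
    by_cases h1 : Irred ξ (B v) δ' τ
    · by_cases h2 : load v ≤ δ' * ((B v).card : ℝ)
      · have hBne : (B v).Nonempty := by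
          rw [hV, mem_image] at hv
          obtain ⟨s, _, hs⟩ := hv
          exact ⟨s, by rw [hmemB]; exact hs⟩
        obtain ⟨w, hw⟩ := exists_label ξ (B v) r τ δ' hτ0 hτ1 hBne h2 h1
        have h3 : cnt (fun s => q s = v ∧ ¬ Dom q r τ s) ≤
            cnt (fun s => s ∈ B v ∧ r s ≠ w) := by
          apply cnt_mono
          rintro s ⟨h4, h5⟩
          refine ⟨by rw [hmemB]; exact h4, ?_⟩
          intro h6
          apply h5
          unfold Dom
          rw [hpart s h4]
          refine le_trans hw (le_of_eq ?_)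
          congr 1
          ext t
          rw [hmemB, h4, h6]
        have h4 : cnt (fun s => s ∈ B v ∧ r s ≠ w) + cnt (fun s => s ∈ B v ∧ r s = w) =
            ((B v).card : ℝ) := by
          have h5 : (B v).card = ((B v).filter (fun s => r s = w)).card +
              ((B v).filter (fun s => ¬ r s = w)).card :=
            (Finset.card_filter_add_card_filter_not _).symm
          have h6 : cnt (fun s => s ∈ B v ∧ r s ≠ w) =
              (((B v).filter (fun s => ¬ r s = w)).card : ℝ) := by
            rw [← cnt_mem]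
            congr 1
            ext s
            simp
          have h7 : cnt (fun s => s ∈ B v ∧ r s = w) =
              (((B v).filter (fun s => r s = w)).card : ℝ) := by
            rw [← cnt_mem]
            congr 1
            ext s
            simp
          rw [h6, h7, h5]
          push_cast
          ring
        linarith
      · push Not at h2
        have h3 : ((B v).card : ℝ) ≤ load v / δ' := by
          rw [le_div_iff₀ hδ']
          linarith
        linarith
    · have h3 : ((B v).card : ℝ) ≤ cnt (fun s => q s = v ∧ ¬ Irred ξ (part q s) δ' τ) := by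
        rw [← cnt_mem (B v)]
        apply cnt_mono
        intro s hs
        rw [hmemB] at hs
        refine ⟨hs, ?_⟩
        rw [hpart s hs]
        exact h1
      linarith
  rw [cnt_fiber q]
  refine le_trans (Finset.sum_le_sum hmain) ?_
  rw [Finset.sum_add_distrib, Finset.sum_add_distrib, ← Finset.mul_sum, hsumB,
    ← Finset.sum_div]
  have h5 : (∑ v ∈ V, load v) / δ' ≤ ((δ + δ2) / δ') * N := by
    rw [div_le_iff₀ hδ']
    refine le_trans hsumload (le_of_eq ?_)
    field_simp
  linarith

end

end Pool.Agent.Helper53.Sof
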