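import Pool.Agent.Helper13.Sof.Goals

/-!
# The monotone function lemma
-/

namespace Pool.Agent.Helper53.Sof

open Finset Pool.Agent.Helper13.Sof

noncomputable section

section basics

variable {A : Type} [Fintype A]

lemma cnt_nonneg (P : A → Prop) : 0 ≤ cnt P := by
  unfold cnt; positivity

lemma cnt_mono {P Q : A → Prop} (h : ∀ s, P s → Q s) : cnt P ≤ cnt Q := by
  classical
  unfold cnt
  norm_cast
  apply Finset.card_le_card
  intro s hs
  simp only [mem_filter, mem_univ, true_and] at hs ⊢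
  exact h s hs

lemma cnt_or_le (P Q : A → Prop) : cnt (fun s => P s ∨ Q s) ≤ cnt P + cnt Q := by
  classical
  unfold cnt
  norm_cast
  refine le_trans (Finset.card_le_card ?_) (Finset.card_union_le _ _)
  intro s hs
  simp only [mem_filter, mem_univ, true_and, mem_union] at hs ⊢
  exact hs

lemma cnt_perm (σ : Equiv.Perm A) (P : A → Prop) : cnt (fun s => P (σ s)) = cnt P := by
  classical
  unfold cnt
  norm_cast
  refine Finset.card_bij (fun s _ => σ s) ?_ ?_ ?_
  · intro s hs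
    simp only [mem_filter, mem_univ, true_and] at hs ⊢
    exact hs
  · intro s _ t _ h
    exact σ.injective h
  · intro t ht
    refine ⟨σ.symm t, ?_, by simp⟩
    simp only [mem_filter, mem_univ, true_and] at ht ⊢
    simpa using ht

lemma cnt_mem (S : Finset A) : cnt (fun s => s ∈ S) = (S.card : ℝ) := by
  classical
  unfold cnt
  congr 2
  ext s
  simp

lemma cnt_true : cnt (fun _ : A => True) = (Fintype.card A : ℝ) := by
  classical
  unfold cnt
  simp [Finset.card_univ]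

lemma cnt_fiber (q : A → ℕ) (P : A → Prop) :
    cnt P = ∑ v ∈ univ.image q, cnt (fun s => q s = v ∧ P s) := by
  classical
  unfold cnt
  rw [Finset.card_eq_sum_card_fiberwise (f := q) (t := univ.image q)]
  · push_cast
    refine Finset.sum_congr rfl fun v _ => ?_
    congr 2
    ext s
    simp only [mem_filter, mem_univ, true_and]
    tauto
  · intro s _
    simp

end basics

/-- The number of thresholds that see the point. -/
lemma thr_sum (δ : ℝ) (hδ0 : 0 ≤ δ) (hδ1 : δ ≤ 1 / 2) (ν : ℕ) (T : Finset ℕ)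
    (hT : ∀ θ ∈ T, θ ≤ ν ∧ (1 - δ) * (ν : ℝ) ≤ (θ : ℝ) - 1) :
    ∑ θ ∈ T, (1 / (θ : ℝ)) ≤ δ / (1 - δ) := by
  have h1δ : 0 < 1 - δ := by linarith
  rcases Nat.eq_zero_or_pos ν with h0 | hpos
  · have : T = ∅ := by
      rw [Finset.eq_empty_iff_forall_notMem]
      intro θ hθ
      obtain ⟨h1, h2⟩ := hT θ hθ
      subst h0
      have : θ = 0 := by omega
      subst this
      simp at h2
      linarith
    subst this
    simp
    positivity
  · have hν : (0 : ℝ) < ν := by exact_mod_cast hpos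
    have hpos' : 0 < (1 - δ) * (ν : ℝ) := by positivity
    have hsub : T ⊆ Finset.Icc (⌈(1 - δ) * (ν : ℝ)⌉₊ + 1) ν := by
      intro θ hθ
      obtain ⟨h1, h2⟩ := hT θ hθ
      rw [Finset.mem_Icc]
      refine ⟨?_, h1⟩
      have h3 : (1 - δ) * (ν : ℝ) ≤ ((θ - 1 : ℕ) : ℝ) := by
        have hθ1 : 1 ≤ θ := by
          by_contra hc
          have : θ = 0 := by omega
          subst this
          simp at h2
          linarith
        rw [Nat.cast_sub hθ1]
        simpa using h2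
      have h4 : ⌈(1 - δ) * (ν : ℝ)⌉₊ ≤ θ - 1 := Nat.ceil_le.mpr h3
      have hθ1 : 1 ≤ θ := by
        by_contra hc
        have : θ = 0 := by omega
        subst this
        simp at h2
        linarith
      omega
    have hcard : (T.card : ℝ) ≤ δ * ν := by
      have h1 : T.card ≤ ν - ⌈(1 - δ) * (ν : ℝ)⌉₊ := by
        refine le_trans (Finset.card_le_card hsub) ?_
        rw [Nat.card_Icc]
        omega
      have h2 : ⌈(1 - δ) * (ν : ℝ)⌉₊ ≤ ν := by
        apply Nat.ceil_le.mpr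
        nlinarith
      have h3 : ((ν - ⌈(1 - δ) * (ν : ℝ)⌉₊ : ℕ) : ℝ) = ν - ⌈(1 - δ) * (ν : ℝ)⌉₊ := by
        rw [Nat.cast_sub h2]
      have h4 : (1 - δ) * (ν : ℝ) ≤ (⌈(1 - δ) * (ν : ℝ)⌉₊ : ℝ) := Nat.le_ceil _
      have h5 : (T.card : ℝ) ≤ ((ν - ⌈(1 - δ) * (ν : ℝ)⌉₊ : ℕ) : ℝ) := by exact_mod_cast h1
      rw [h3] at h5
      linarith
    have hterm : ∀ θ ∈ T, (1 / (θ : ℝ)) ≤ 1 / ((1 - δ) * (ν : ℝ)) := by
      intro θ hθ
      obtain ⟨h1, h2⟩ := hT θ hθ
      apply one_div_le_one_div_of_le hpos'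
      linarith
    calc ∑ θ ∈ T, (1 / (θ : ℝ)) ≤ ∑ θ ∈ T, 1 / ((1 - δ) * (ν : ℝ)) := Finset.sum_le_sum hterm
      _ = T.card * (1 / ((1 - δ) * (ν : ℝ))) := by rw [Finset.sum_const, nsmul_eq_mul]
      _ ≤ (δ * ν) * (1 / ((1 - δ) * (ν : ℝ))) := by
          apply mul_le_mul_of_nonneg_right hcard
          positivity
      _ = δ / (1 - δ) := by
          field_simp

variable {A : Type} [Fintype A]

/-- The local statement inside one part. -/
lemma localMono {m m' : ℕ} (ξ : Fin m → Equiv.Perm A) (u : Fin m' → Equiv.Perm A)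
    (Err : Finset A) (ν : A → ℕ) (B : Finset A) (C κ δ g τ δL : ℝ)
    (hC : 0 ≤ C) (hκ : 0 < κ) (hδ0 : 0 < δ) (hδ1 : δ ≤ 1 / 2) (hg : 0 < g) (hτ0 : 0 < τ)
    (hτ1 : τ ≤ 1 / 4)
    (hgL : (m : ℝ) * C * ((m' : ℝ) + 1) * g ≤ δL)
    (hk : 2 * δ * (1 + κ) ≤ κ * g)
    (hload : ∑ i, cnt (fun s => s ∈ B ∧ u i s ∉ B) + cnt (fun s => s ∈ B ∧ s ∈ Err) +
      ∑ i, cnt (fun s => s ∈ B ∧ (ν (u i s) : ℝ) < (1 - δ) * (ν s : ℝ)) ≤ g * (B.card : ℝ))
    (hirr : Irred ξ B δL τ)
    (hS : ∀ (S : Finset A) (j : Fin m), cnt (fun s => s ∈ S ∧ ξ j s ∉ S) ≤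
        C * (∑ i, cnt (fun s => s ∈ S ∧ u i s ∉ S) + cnt (fun s => s ∈ S ∧ s ∈ Err)))
    (i : Fin m') :
    cnt (fun s => s ∈ B ∧ (1 + κ) * (ν s : ℝ) < (ν (u i s) : ℝ)) ≤
      (2 * τ + g) * (B.card : ℝ) := by
  classical
  rcases B.eq_empty_or_nonempty with hB | hB
  · subst hB
    simp [cnt]
  have hBpos : (0 : ℝ) < B.card := by exact_mod_cast hB.card_pos
  set SS : ℕ → Finset A := fun θ => B.filter (fun s => θ ≤ ν s) with hSS
  set W : ℕ → Finset A := fun θ => B.filter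
    (fun s => θ ≤ ν s ∧ (1 - δ) * (ν s : ℝ) ≤ (θ : ℝ) - 1) with hW
  have hanti : ∀ θ θ' : ℕ, θ ≤ θ' → (SS θ').card ≤ (SS θ).card := by
    intro θ θ' h
    apply Finset.card_le_card
    intro s hs
    simp only [hSS, mem_filter] at hs ⊢
    exact ⟨hs.1, h.trans hs.2⟩
  -- small window implies dichotomy
  have hdich : ∀ θ : ℕ, ((W θ).card : ℝ) ≤ g * (B.card : ℝ) →
      ((SS θ).card : ℝ) ≤ τ * (B.card : ℝ) ∨ (1 - τ) * (B.card : ℝ) ≤ ((SS θ).card : ℝ) := by
    intro θ hWθ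
    apply hirr (SS θ) (Finset.filter_subset _ _)
    have h1 : ∀ i, cnt (fun s => s ∈ SS θ ∧ u i s ∉ SS θ) ≤
        cnt (fun s => s ∈ B ∧ u i s ∉ B) +
        cnt (fun s => s ∈ B ∧ (ν (u i s) : ℝ) < (1 - δ) * (ν s : ℝ)) + ((W θ).card : ℝ) := by
      intro i
      rw [← cnt_mem (W θ)]
      refine le_trans (cnt_mono (Q := fun s => ((s ∈ B ∧ u i s ∉ B) ∨
        (s ∈ B ∧ (ν (u i s) : ℝ) < (1 - δ) * (ν s : ℝ))) ∨ s ∈ W θ) ?_) ?_
      · intro s hs
        obtain ⟨h1, h2⟩ := hs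
        simp only [hSS, mem_filter, not_and, not_le] at h1 h2
        by_cases hu : u i s ∈ B
        · have h3 := h2 hu
          by_cases h4 : (ν (u i s) : ℝ) < (1 - δ) * (ν s : ℝ)
          · exact Or.inl (Or.inr ⟨h1.1, h4⟩)
          · right
            simp only [hW, mem_filter]
            refine ⟨h1.1, h1.2, ?_⟩
            push Not at h4
            have h5 : (ν (u i s) : ℝ) + 1 ≤ (θ : ℝ) := by exact_mod_cast h3
            linarith
        · exact Or.inl (Or.inl ⟨h1.1, hu⟩)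
      · refine le_trans (cnt_or_le _ _) ?_
        have := cnt_or_le (fun s => s ∈ B ∧ u i s ∉ B)
          (fun s => s ∈ B ∧ (ν (u i s) : ℝ) < (1 - δ) * (ν s : ℝ))
        linarith
    have h2 : ∑ i, cnt (fun s => s ∈ SS θ ∧ u i s ∉ SS θ) ≤
        ∑ i, cnt (fun s => s ∈ B ∧ u i s ∉ B) +
        ∑ i, cnt (fun s => s ∈ B ∧ (ν (u i s) : ℝ) < (1 - δ) * (ν s : ℝ)) +
        (m' : ℝ) * ((W θ).card : ℝ) := by
      refine le_trans (Finset.sum_le_sum fun i _ => h1 i) ?_
      rw [Finset.sum_add_distrib, Finset.sum_add_distrib]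
      simp
    have h3 : cnt (fun s => s ∈ SS θ ∧ s ∈ Err) ≤ cnt (fun s => s ∈ B ∧ s ∈ Err) := by
      apply cnt_mono
      intro s hs
      refine ⟨?_, hs.2⟩
      have := hs.1
      simp only [hSS, mem_filter] at this
      exact this.1
    have h4 : ∑ i, cnt (fun s => s ∈ SS θ ∧ u i s ∉ SS θ) + cnt (fun s => s ∈ SS θ ∧ s ∈ Err) ≤
        ((m' : ℝ) + 1) * (g * (B.card : ℝ)) := by
      have h5 : (m' : ℝ) * ((W θ).card : ℝ) ≤ (m' : ℝ) * (g * (B.card : ℝ)) :=
        mul_le_mul_of_nonneg_left hWθ (by positivity)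
      linarith
    have h5 : eb ξ (SS θ) ≤ (m : ℝ) * (C * (((m' : ℝ) + 1) * (g * (B.card : ℝ)))) := by
      unfold eb
      have : ∀ j ∈ (univ : Finset (Fin m)), cnt (fun s => s ∈ SS θ ∧ ξ j s ∉ SS θ) ≤
          C * (((m' : ℝ) + 1) * (g * (B.card : ℝ))) := by
        intro j _
        exact le_trans (hS (SS θ) j) (mul_le_mul_of_nonneg_left h4 hC)
      refine le_trans (Finset.sum_le_sum this) ?_
      simp
    refine le_trans h5 ?_
    calc (m : ℝ) * (C * (((m' : ℝ) + 1) * (g * (B.card : ℝ))))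
        = ((m : ℝ) * C * ((m' : ℝ) + 1) * g) * (B.card : ℝ) := by ring
      _ ≤ δL * (B.card : ℝ) := mul_le_mul_of_nonneg_right hgL hBpos.le
  -- thresholds
  have hex : ∃ θ : ℕ, ((SS θ).card : ℝ) ≤ τ * (B.card : ℝ) := by
    refine ⟨(B.sup ν) + 1, ?_⟩
    have : SS (B.sup ν + 1) = ∅ := by
      rw [Finset.eq_empty_iff_forall_notMem]
      intro s hs
      simp only [hSS, mem_filter] at hs
      have := Finset.le_sup (f := ν) hs.1
      omega
    rw [this]
    simp only [card_empty, Nat.cast_zero]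
    positivity
  set b := Nat.find hex with hb
  have hb1 : ((SS b).card : ℝ) ≤ τ * (B.card : ℝ) := Nat.find_spec hex
  have hb2 : ∀ θ, θ < b → τ * (B.card : ℝ) < ((SS θ).card : ℝ) := by
    intro θ hθ
    have := Nat.find_min hex hθ
    push Not at this
    exact this
  have hS0 : (SS 0) = B := by
    ext s
    simp [hSS]
  have hbpos : 0 < b := by
    rcases Nat.eq_zero_or_pos b with h | h
    · exfalso
      rw [h, hS0] at hb1
      nlinarith
    · exact h
  -- the largest threshold with a large set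
  set Ta : Finset ℕ := (Finset.range b).filter
    (fun θ => (1 - τ) * (B.card : ℝ) ≤ ((SS θ).card : ℝ)) with hTa
  have h0Ta : 0 ∈ Ta := by
    simp only [hTa, mem_filter, mem_range]
    refine ⟨hbpos, ?_⟩
    rw [hS0]
    nlinarith
  set a := Ta.max' ⟨0, h0Ta⟩ with ha
  have haTa : a ∈ Ta := Finset.max'_mem _ _
  have ha1 : (1 - τ) * (B.card : ℝ) ≤ ((SS a).card : ℝ) := by
    simp only [hTa, mem_filter] at haTa
    exact haTa.2
  have hab : a < b := by
    simp only [hTa, mem_filter, mem_range] at haTa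
    exact haTa.1
  have hmid : ∀ θ, a < θ → θ < b → g * (B.card : ℝ) < ((W θ).card : ℝ) := by
    intro θ h1 h2
    by_contra hc
    push Not at hc
    rcases hdich θ hc with h | h
    · have := hb2 θ h2
      linarith
    · have h3 : θ ∈ Ta := by
        simp only [hTa, mem_filter, mem_range]
        exact ⟨h2, h⟩
      have := Finset.le_max' Ta θ h3
      omega
  -- double count
  have hdc : ∑ θ ∈ Finset.Ioo a b, ((W θ).card : ℝ) * (1 / (θ : ℝ)) ≤
      (B.card : ℝ) * (δ / (1 - δ)) := by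
    have h1 : ∀ θ : ℕ, ((W θ).card : ℝ) * (1 / (θ : ℝ)) =
        ∑ s ∈ B, (if θ ≤ ν s ∧ (1 - δ) * (ν s : ℝ) ≤ (θ : ℝ) - 1 then (1 / (θ : ℝ)) else 0) := by
      intro θ
      rw [← Finset.sum_filter, Finset.sum_const, nsmul_eq_mul]
    simp_rw [h1]
    rw [Finset.sum_comm]
    have h2 : ∀ s ∈ B, ∑ θ ∈ Finset.Ioo a b,
        (if θ ≤ ν s ∧ (1 - δ) * (ν s : ℝ) ≤ (θ : ℝ) - 1 then (1 / (θ : ℝ)) else 0) ≤
        δ / (1 - δ) := by
      intro s _
      rw [← Finset.sum_filter]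
      apply thr_sum δ hδ0.le hδ1 (ν s)
      intro θ hθ
      simp only [mem_filter] at hθ
      exact hθ.2
    refine le_trans (Finset.sum_le_sum h2) ?_
    simp
  have hlow : (g * (B.card : ℝ)) * (((b : ℝ) - 1 - a) * (1 / ((b : ℝ) - 1))) ≤
      ∑ θ ∈ Finset.Ioo a b, ((W θ).card : ℝ) * (1 / (θ : ℝ)) := by
    have h1 : ∀ θ ∈ Finset.Ioo a b, (g * (B.card : ℝ)) * (1 / ((b : ℝ) - 1)) ≤
        ((W θ).card : ℝ) * (1 / (θ : ℝ)) := by
      intro θ hθ
      rw [Finset.mem_Ioo] at hθ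
      have hθ0 : (0 : ℝ) < θ := by
        have : 0 < θ := by omega
        exact_mod_cast this
      have hθb : (θ : ℝ) ≤ (b : ℝ) - 1 := by
        have : θ + 1 ≤ b := by omega
        have : (θ : ℝ) + 1 ≤ b := by exact_mod_cast this
        linarith
      apply mul_le_mul (hmid θ hθ.1 hθ.2).le
      · exact one_div_le_one_div_of_le hθ0 hθb
      · apply one_div_nonneg.mpr
        linarith
      · positivity
    have h2 := Finset.sum_le_sum h1
    rw [Finset.sum_const, nsmul_eq_mul, Nat.card_Ioo] at h2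
    have h3 : ((b - a - 1 : ℕ) : ℝ) = (b : ℝ) - 1 - a := by
      have : b - a - 1 = b - (a + 1) := by omega
      rw [this, Nat.cast_sub (by omega)]
      push_cast
      ring
    rw [h3] at h2
    linarith
  have hkey : (b : ℝ) - 1 ≤ (1 + κ) * a := by
    rcases Nat.lt_or_ge 1 b with hb1' | hb1'
    · have hbp : (0 : ℝ) < (b : ℝ) - 1 := by
        have : (1 : ℝ) < b := by exact_mod_cast hb1'
        linarith
      have h1 : (g * (B.card : ℝ)) * (((b : ℝ) - 1 - a) * (1 / ((b : ℝ) - 1))) ≤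
        (B.card : ℝ) * (δ / (1 - δ)) := hlow.trans hdc
      have h2 : g * (((b : ℝ) - 1 - a) * (1 / ((b : ℝ) - 1))) ≤ δ / (1 - δ) := by
        have h3 : (B.card : ℝ) * (g * (((b : ℝ) - 1 - a) * (1 / ((b : ℝ) - 1)))) ≤
          (B.card : ℝ) * (δ / (1 - δ)) := by linarith
        exact le_of_mul_le_mul_left h3 hBpos
      have h3 : δ / (1 - δ) ≤ 2 * δ := by
        rw [div_le_iff₀ (by linarith)]
        nlinarith
      have h4 : g * (((b : ℝ) - 1 - a) * (1 / ((b : ℝ) - 1))) ≤ 2 * δ := h2.trans h3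
      have h5 : g * ((b : ℝ) - 1 - a) ≤ 2 * δ * ((b : ℝ) - 1) := by
        have h6 : g * (((b : ℝ) - 1 - a) * (1 / ((b : ℝ) - 1))) =
          (g * ((b : ℝ) - 1 - a)) / ((b : ℝ) - 1) := by ring
        rw [h6, div_le_iff₀ hbp] at h4
        exact h4
      -- (1+κ) g (x - a) ≤ 2 δ (1+κ) x ≤ κ g x
      have h7 : (1 + κ) * (g * ((b : ℝ) - 1 - a)) ≤ κ * g * ((b : ℝ) - 1) := by
        calc (1 + κ) * (g * ((b : ℝ) - 1 - a)) ≤ (1 + κ) * (2 * δ * ((b : ℝ) - 1)) :=
              mul_le_mul_of_nonneg_left h5 (by linarith)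
          _ = (2 * δ * (1 + κ)) * ((b : ℝ) - 1) := by ring
          _ ≤ (κ * g) * ((b : ℝ) - 1) := mul_le_mul_of_nonneg_right hk hbp.le
      have h8 : g * ((b : ℝ) - 1) ≤ g * ((1 + κ) * a) := by nlinarith
      exact le_of_mul_le_mul_left h8 hg
    · have : b = 1 := by omega
      rw [this]
      have : (0 : ℝ) ≤ (1 + κ) * a := by positivity
      simpa using this
  -- conclusion
  have hx : cnt (fun s => s ∈ B ∧ u i s ∉ B) ≤ g * (B.card : ℝ) := by
    have h1 : cnt (fun s => s ∈ B ∧ u i s ∉ B) ≤ ∑ i, cnt (fun s => s ∈ B ∧ u i s ∉ B) :=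
      Finset.single_le_sum (f := fun i => cnt (fun s => s ∈ B ∧ u i s ∉ B))
        (fun j _ => cnt_nonneg _) (mem_univ i)
    have h2 := cnt_nonneg (fun s => s ∈ B ∧ s ∈ Err)
    have h3 : 0 ≤ ∑ i, cnt (fun s => s ∈ B ∧ (ν (u i s) : ℝ) < (1 - δ) * (ν s : ℝ)) :=
      Finset.sum_nonneg fun j _ => cnt_nonneg _
    linarith
  have hlo : cnt (fun s => s ∈ B ∧ ν s < a) ≤ τ * (B.card : ℝ) := by
    have h1 : cnt (fun s => s ∈ B ∧ ν s < a) = (B.card : ℝ) - ((SS a).card : ℝ) := by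
      have h2 : B.card = (B.filter (fun s => a ≤ ν s)).card +
          (B.filter (fun s => ¬ a ≤ ν s)).card :=
        (Finset.card_filter_add_card_filter_not _).symm
      have h3 : cnt (fun s => s ∈ B ∧ ν s < a) = ((B.filter (fun s => ¬ a ≤ ν s)).card : ℝ) := by
        unfold cnt
        congr 2
        ext s
        simp
      rw [h3, h2]
      push_cast
      simp only [hSS]
      ring
    rw [h1]
    linarith
  have hhi : cnt (fun s => u i s ∈ SS b) ≤ τ * (B.card : ℝ) := by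
    rw [cnt_perm (u i) (fun s => s ∈ SS b), cnt_mem]
    exact hb1
  have hfin : cnt (fun s => s ∈ B ∧ (1 + κ) * (ν s : ℝ) < (ν (u i s) : ℝ)) ≤
      cnt (fun s => ((s ∈ B ∧ u i s ∉ B) ∨ (s ∈ B ∧ ν s < a)) ∨ u i s ∈ SS b) := by
    apply cnt_mono
    rintro s ⟨hsB, hs⟩
    by_cases h1 : u i s ∈ B
    · by_cases h2 : ν s < a
      · exact Or.inl (Or.inr ⟨hsB, h2⟩)
      · right
        simp only [hSS, mem_filter]
        refine ⟨h1, ?_⟩
        by_contra h3
        push Not at h2 h3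
        have h4 : (ν (u i s) : ℝ) + 1 ≤ b := by exact_mod_cast h3
        have h5 : (a : ℝ) ≤ ν s := by exact_mod_cast h2
        have h6 : (1 + κ) * (a : ℝ) ≤ (1 + κ) * (ν s : ℝ) :=
          mul_le_mul_of_nonneg_left h5 (by linarith)
        linarith
    · exact Or.inl (Or.inl ⟨hsB, h1⟩)
  have hor1 := cnt_or_le (fun s => (s ∈ B ∧ u i s ∉ B) ∨ (s ∈ B ∧ ν s < a)) (fun s => u i s ∈ SS b)
  have hor2 := cnt_or_le (fun s => s ∈ B ∧ u i s ∉ B) (fun s => s ∈ B ∧ ν s < a)
  linarith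

theorem monoLemma : MonoLemma := by
  intro m m' C κ hC hκ
  refine ⟨min (κ / 10) (1 / 4), by positivity, ?_⟩
  intro δL hδL
  set τ : ℝ := min (κ / 10) (1 / 4) with hτ
  have hτ0 : 0 < τ := by positivity
  have hτ1 : τ ≤ 1 / 4 := min_le_right _ _
  have hτκ : τ ≤ κ / 10 := min_le_left _ _
  set D : ℝ := (((m : ℝ) + 1) * (C + 1) * ((m' : ℝ) + 1)) with hD
  have hDpos : 0 < D := by positivity
  set g : ℝ := min (min (κ / 10) 1) (δL / D) with hgdef
  have hg0 : 0 < g := by positivity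
  have hgκ : g ≤ κ / 10 := (min_le_left _ _).trans (min_le_left _ _)
  have hg1 : g ≤ 1 := (min_le_left _ _).trans (min_le_right _ _)
  have hgD : g * D ≤ δL := by
    have : g ≤ δL / D := min_le_right _ _
    rwa [le_div_iff₀ hDpos] at this
  have hgL : (m : ℝ) * C * ((m' : ℝ) + 1) * g ≤ δL := by
    refine le_trans ?_ hgD
    have h1 : (m : ℝ) * C ≤ ((m : ℝ) + 1) * (C + 1) := by
      have : (0 : ℝ) ≤ m := by positivity
      nlinarith
    have h2 : (m : ℝ) * C * ((m' : ℝ) + 1) ≤ D := by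
      rw [hD]
      exact mul_le_mul_of_nonneg_right h1 (by positivity)
    have := mul_le_mul_of_nonneg_right h2 hg0.le
    linarith
  set δ : ℝ := g * κ / (20 * (2 * (m' : ℝ) + 1) * (1 + κ)) with hδdef
  have hden : 0 < (20 * (2 * (m' : ℝ) + 1) * (1 + κ)) := by positivity
  have hδ0 : 0 < δ := by positivity
  have hδmul : δ * (20 * (2 * (m' : ℝ) + 1) * (1 + κ)) = g * κ := by
    rw [hδdef]
    field_simp
  have hm0 : (0 : ℝ) ≤ m' := by positivity
  have hk : 2 * δ * (1 + κ) ≤ κ * g := by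
    have h1 : 2 * δ * (1 + κ) * 1 ≤ 2 * δ * (1 + κ) * (10 * (2 * (m' : ℝ) + 1)) := by
      apply mul_le_mul_of_nonneg_left _ (by positivity)
      linarith
    nlinarith
  have hδ1 : δ ≤ 1 / 2 := by
    have h1 : 2 * δ * (1 + κ) ≤ κ * 1 :=
      hk.trans (mul_le_mul_of_nonneg_left hg1 hκ.le)
    nlinarith
  have hδg : (2 * (m' : ℝ) + 1) * δ ≤ g * (κ / 10) := by
    have h1 : (2 * (m' : ℝ) + 1) * δ * 20 * 1 ≤ (2 * (m' : ℝ) + 1) * δ * 20 * (1 + κ) := by
      apply mul_le_mul_of_nonneg_left _ (by positivity)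
      linarith
    have h2 : 0 < g * κ := by positivity
    nlinarith
  refine ⟨δ, hδ0, ?_⟩
  intro A _ ξ u Err q ν hErr hq hν hirr hS i
  classical
  set N : ℝ := (Fintype.card A : ℝ) with hN
  have hN0 : 0 ≤ N := by positivity
  set V := univ.image q with hV
  set B : ℕ → Finset A := fun v => univ.filter (fun s => q s = v) with hB
  have hmemB : ∀ v s, s ∈ B v ↔ q s = v := by
    intro v s
    simp [hB]
  set load : ℕ → ℝ := fun v => ∑ i, cnt (fun s => s ∈ B v ∧ u i s ∉ B v) +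
      cnt (fun s => s ∈ B v ∧ s ∈ Err) +
      ∑ i, cnt (fun s => s ∈ B v ∧ (ν (u i s) : ℝ) < (1 - δ) * (ν s : ℝ)) with hload
  have hload0 : ∀ v, 0 ≤ load v := by
    intro v
    have h1 : 0 ≤ ∑ i, cnt (fun s => s ∈ B v ∧ u i s ∉ B v) :=
      Finset.sum_nonneg fun j _ => cnt_nonneg _
    have h2 := cnt_nonneg (fun s => s ∈ B v ∧ s ∈ Err)
    have h3 : 0 ≤ ∑ i, cnt (fun s => s ∈ B v ∧ (ν (u i s) : ℝ) < (1 - δ) * (ν s : ℝ)) :=
      Finset.sum_nonneg fun j _ => cnt_nonneg _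
    simp only [hload]
    linarith
  have hsumload : ∑ v ∈ V, load v ≤ (2 * (m' : ℝ) + 1) * δ * N := by
    simp only [hload]
    rw [Finset.sum_add_distrib, Finset.sum_add_distrib]
    have h1 : ∑ v ∈ V, ∑ i, cnt (fun s => s ∈ B v ∧ u i s ∉ B v) ≤ (m' : ℝ) * (δ * N) := by
      rw [Finset.sum_comm]
      have : ∀ i ∈ (univ : Finset (Fin m')), ∑ v ∈ V, cnt (fun s => s ∈ B v ∧ u i s ∉ B v) ≤
          δ * N := by
        intro i _
        refine le_trans (le_of_eq ?_) (hq i)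
        rw [cnt_fiber q (fun s => q (u i s) ≠ q s)]
        refine Finset.sum_congr rfl fun v _ => ?_
        congr 1
        ext s
        rw [hmemB, hmemB]
        constructor
        · rintro ⟨h1, h2⟩
          exact ⟨h1, by rw [h1]; exact h2⟩
        · rintro ⟨h1, h2⟩
          exact ⟨h1, by rw [h1] at h2; exact h2⟩
      refine le_trans (Finset.sum_le_sum this) ?_
      simp
    have h2 : ∑ v ∈ V, cnt (fun s => s ∈ B v ∧ s ∈ Err) ≤ δ * N := by
      refine le_trans (le_of_eq ?_) hErr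
      rw [← cnt_mem Err, cnt_fiber q (fun s => s ∈ Err)]
      refine Finset.sum_congr rfl fun v _ => ?_
      congr 1
      ext s
      rw [hmemB]
    have h3 : ∑ v ∈ V, ∑ i, cnt (fun s => s ∈ B v ∧ (ν (u i s) : ℝ) < (1 - δ) * (ν s : ℝ)) ≤
        (m' : ℝ) * (δ * N) := by
      rw [Finset.sum_comm]
      have : ∀ i ∈ (univ : Finset (Fin m')),
          ∑ v ∈ V, cnt (fun s => s ∈ B v ∧ (ν (u i s) : ℝ) < (1 - δ) * (ν s : ℝ)) ≤
          δ * N := by
        intro i _
        refine le_trans (le_of_eq ?_) (hν i)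
        rw [cnt_fiber q (fun s => (ν (u i s) : ℝ) < (1 - δ) * (ν s : ℝ))]
        refine Finset.sum_congr rfl fun v _ => ?_
        congr 1
        ext s
        rw [hmemB]
      refine le_trans (Finset.sum_le_sum this) ?_
      simp
    linarith
  have hsumB : ∑ v ∈ V, ((B v).card : ℝ) = N := by
    have h1 := cnt_fiber q (fun _ : A => True)
    rw [cnt_true] at h1
    rw [hN, h1]
    refine Finset.sum_congr rfl fun v _ => ?_
    rw [← cnt_mem (B v)]
    congr 1
    ext s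
    rw [hmemB]
    simp
  have hsumI : ∑ v ∈ V, cnt (fun s => q s = v ∧ ¬ Irred ξ (part q s) δL τ) ≤ τ * N := by
    rw [← cnt_fiber q (fun s => ¬ Irred ξ (part q s) δL τ)]
    exact hirr
  have hmain : ∀ v ∈ V, cnt (fun s => q s = v ∧ (1 + κ) * (ν s : ℝ) < (ν (u i s) : ℝ)) ≤
      (2 * τ + g) * ((B v).card : ℝ) +
      cnt (fun s => q s = v ∧ ¬ Irred ξ (part q s) δL τ) + load v / g := by
    intro v hv
    have hpart : ∀ s, q s = v → part q s = B v := by
      intro s hs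
      unfold part
      simp only [hB]
      ext t
      simp [hs]
    have hle : cnt (fun s => q s = v ∧ (1 + κ) * (ν s : ℝ) < (ν (u i s) : ℝ)) ≤
        ((B v).card : ℝ) := by
      rw [← cnt_mem (B v)]
      apply cnt_mono
      intro s hs
      rw [hmemB]
      exact hs.1
    have hc0 := cnt_nonneg (fun s => q s = v ∧ ¬ Irred ξ (part q s) δL τ)
    have hl0 : 0 ≤ load v / g := div_nonneg (hload0 v) hg0.le
    have hb0 : 0 ≤ (2 * τ + g) * ((B v).card : ℝ) := by positivity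
    by_cases h1 : Irred ξ (B v) δL τ
    · by_cases h2 : load v ≤ g * ((B v).card : ℝ)
      · have h3 := localMono ξ u Err ν (B v) C κ δ g τ δL hC hκ hδ0 hδ1 hg0 hτ0 hτ1 hgL hk h2
          h1 hS i
        have h4 : cnt (fun s => q s = v ∧ (1 + κ) * (ν s : ℝ) < (ν (u i s) : ℝ)) =
            cnt (fun s => s ∈ B v ∧ (1 + κ) * (ν s : ℝ) < (ν (u i s) : ℝ)) := by
          congr 1
          ext s
          rw [hmemB]
        rw [h4]
        linarith
      · push Not at h2
        have h3 : ((B v).card : ℝ) ≤ load v / g := by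
          rw [le_div_iff₀ hg0]
          linarith
        linarith
    · have h3 : ((B v).card : ℝ) ≤ cnt (fun s => q s = v ∧ ¬ Irred ξ (part q s) δL τ) := by
        rw [← cnt_mem (B v)]
        apply cnt_mono
        intro s hs
        rw [hmemB] at hs
        refine ⟨hs, ?_⟩
        rw [hpart s hs]
        exact h1
      linarith
  rw [cnt_fiber q]
  refine le_trans (Finset.sum_le_sum hmain) ?_
  rw [Finset.sum_add_distrib, Finset.sum_add_distrib, ← Finset.mul_sum, hsumB,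
    ← Finset.sum_div]
  have h5 : (∑ v ∈ V, load v) / g ≤ (κ / 10) * N := by
    rw [div_le_iff₀ hg0]
    refine le_trans hsumload ?_
    calc (2 * (m' : ℝ) + 1) * δ * N ≤ (g * (κ / 10)) * N :=
          mul_le_mul_of_nonneg_right hδg hN0
      _ = κ / 10 * N * g := by ring
  have h6 : (2 * τ + g) * N ≤ (3 * κ / 10) * N := by
    apply mul_le_mul_of_nonneg_right _ hN0
    linarith
  have h7 : τ * N ≤ κ / 10 * N := mul_le_mul_of_nonneg_right hτκ hN0
  have h8 : 0 ≤ κ * N := by positivity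
  linarith

end

end Pool.Agent.Helper53.Sof
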